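import Pool.Agent.Q149.MK.G2

/-!
# Project MK, job GRP: convolution of powers
-/

set_option autoImplicit false

namespace Pool.Agent.Q149.MK

open Finset Pool.Agent.Q291.MK MeasureTheory Quaternion

theorem sum_pairs (a : ℕ → ℝ) (N : ℕ) : ∑ l ∈ range (2 * N), a l = ∑ k ∈ range N, (a (2 * k) + a (2 * k + 1)) := by
  induction N with
  | zero => simp
  | succ N ih =>
    rw [show 2 * (N + 1) = 2 * N + 1 + 1 by ring, Finset.sum_range_succ, Finset.sum_range_succ, Finset.sum_range_succ, ih]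
    ring

/-- the integral of a power of an affine function: in terms of `s` and `δ = (s² - ‖w‖²) / 4` -/
theorem affine_power (s δ : ℝ) (w : ℍ[ℝ]) (hw : ‖w‖ ^ 2 = s ^ 2 - 4 * δ) (n : ℕ) :
    ∫ y : G, ((s + ip y w) / 2) ^ n ∂haar = ∑ r ∈ range (n + 1), DD n r * (-δ) ^ r * s ^ (n - 2 * r) := by
  -- expand
  have h1 : ∀ y : G, ((s + ip y w) / 2) ^ n = ∑ l ∈ range (n + 1), ((1 / 2) ^ n * (n.choose l : ℝ) * s ^ (n - l)) * ip y w ^ l := by
    intro y
    rw [add_comm, div_eq_mul_one_div, mul_pow, add_pow, Finset.sum_mul]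
    refine Finset.sum_congr rfl fun l _ => ?_
    ring
  simp only [h1]
  have hi : ∀ l ∈ range (n + 1), Integrable (fun y : G => ((1 / 2) ^ n * (n.choose l : ℝ) * s ^ (n - l)) * ip y w ^ l) haar :=
    fun l _ => (integ ((cont_ip w).pow l)).const_mul _
  rw [integral_finsetSum _ hi]
  have h2 : ∀ l ∈ range (n + 1), ∫ y : G, ((1 / 2) ^ n * (n.choose l : ℝ) * s ^ (n - l)) * ip y w ^ l ∂haar =
      ((1 / 2) ^ n * (n.choose l : ℝ) * s ^ (n - l)) * (‖w‖ ^ l * ∫ y : G, (y : ℍ[ℝ]).re ^ l ∂haar) := by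
    intro l _
    rw [integral_const_mul, moment]
  rw [Finset.sum_congr rfl h2]
  -- extend the range and group in pairs
  have h3 : ∑ l ∈ range (n + 1), ((1 / 2) ^ n * (n.choose l : ℝ) * s ^ (n - l)) * (‖w‖ ^ l * ∫ y : G, (y : ℍ[ℝ]).re ^ l ∂haar) =
      ∑ l ∈ range (2 * (n + 1)), ((1 / 2) ^ n * (n.choose l : ℝ) * s ^ (n - l)) * (‖w‖ ^ l * ∫ y : G, (y : ℍ[ℝ]).re ^ l ∂haar) := by
    refine Finset.sum_subset (Finset.range_subset_range.2 (by omega)) fun l _ hl => ?_
    have hl' : n + 1 ≤ l := by simpa using hl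
    rw [Nat.choose_eq_zero_of_lt (by omega : n < l)]
    simp
  rw [h3, sum_pairs]
  have h4 : ∀ k ∈ range (n + 1), ((1 / 2) ^ n * (n.choose (2 * k) : ℝ) * s ^ (n - 2 * k)) * (‖w‖ ^ (2 * k) * ∫ y : G, (y : ℍ[ℝ]).re ^ (2 * k) ∂haar) +
      ((1 / 2) ^ n * (n.choose (2 * k + 1) : ℝ) * s ^ (n - (2 * k + 1))) * (‖w‖ ^ (2 * k + 1) * ∫ y : G, (y : ℍ[ℝ]).re ^ (2 * k + 1) ∂haar) =
      ∑ r ∈ range (n + 1), (1 / 2) ^ n * ((n.choose (2 * k) : ℝ) * (k.choose r : ℝ) * mm k) * (4 ^ r * (-δ) ^ r * s ^ (n - 2 * r)) := by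
    intro k hk
    rw [odd_moment, mul_zero, mul_zero, add_zero, even_moment]
    rcases le_or_gt (2 * k) n with hkn | hkn
    · have h5 : ‖w‖ ^ (2 * k) = ∑ r ∈ range (k + 1), (k.choose r : ℝ) * (4 ^ r * (-δ) ^ r) * s ^ (2 * (k - r)) := by
        rw [pow_mul, hw]
        have : s ^ 2 - 4 * δ = 4 * (-δ) + s ^ 2 := by ring
        rw [this, add_pow]
        refine Finset.sum_congr rfl fun r _ => ?_
        rw [mul_pow, ← pow_mul]
        ring
      have h6 : ∑ r ∈ range (n + 1), (1 / 2) ^ n * ((n.choose (2 * k) : ℝ) * (k.choose r : ℝ) * mm k) * (4 ^ r * (-δ) ^ r * s ^ (n - 2 * r)) =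
          ∑ r ∈ range (k + 1), (1 / 2) ^ n * ((n.choose (2 * k) : ℝ) * (k.choose r : ℝ) * mm k) * (4 ^ r * (-δ) ^ r * s ^ (n - 2 * r)) := by
        symm
        refine Finset.sum_subset (Finset.range_subset_range.2 (by have := Finset.mem_range.1 hk; omega)) fun r _ hr => ?_
        have hr' : k + 1 ≤ r := by simpa using hr
        rw [Nat.choose_eq_zero_of_lt (by omega : k < r)]
        simp
      rw [h5, h6, Finset.sum_mul, Finset.mul_sum]
      refine Finset.sum_congr rfl fun r hr => ?_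
      have hr' : r ≤ k := by have := Finset.mem_range.1 hr; omega
      have h7 : s ^ (n - 2 * r) = s ^ (n - 2 * k) * s ^ (2 * (k - r)) := by
        rw [← pow_add]
        congr 1
        omega
      rw [h7]
      ring
    · rw [Nat.choose_eq_zero_of_lt hkn]
      simp
  rw [Finset.sum_congr rfl h4, Finset.sum_comm]
  refine Finset.sum_congr rfl fun r _ => ?_
  rw [← Finset.sum_mul, ← Finset.mul_sum]
  unfold DD XX
  ring

theorem tt_inv_mul (y x : G) : tt (y⁻¹ * x) = (1 + ip y x) / 2 := by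
  unfold tt
  have : (((y⁻¹ * x : G)) : ℍ[ℝ]) = ((y⁻¹ : G) : ℍ[ℝ]) * (x : ℍ[ℝ]) := rfl
  rw [this, re_inv_mul]

theorem cont_tt : Continuous tt := (continuous_const.add cont_re).div_const 2

theorem cont_tt' (x : G) : Continuous fun y : G => tt (y⁻¹ * x) := by
  have : (fun y : G => tt (y⁻¹ * x)) = fun y : G => (1 + ip y x) / 2 := funext fun y => tt_inv_mul y x
  rw [this]
  exact (continuous_const.add (cont_ip x)).div_const 2

/-- the generating polynomial of the convolutions -/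
theorem gen (n : ℕ) (x : G) (β : ℝ) :
    ∑ L ∈ range (n + 1), ((n.choose L : ℝ) * ∫ y, tt y ^ (n - L) * tt (y⁻¹ * x) ^ L ∂haar) * β ^ L =
      ∑ r ∈ range (n + 1), DD n r * (tt x - 1) ^ r * (β ^ r * (1 + β) ^ (n - 2 * r)) := by
  have h1 : ‖(1 : ℍ[ℝ]) + β • (x : ℍ[ℝ])‖ ^ 2 = (1 + β) ^ 2 - 4 * (β * (1 - tt x)) := by
    have h2 := normSq_G x
    rw [sq, ← Quaternion.normSq_eq_norm_mul_self, Quaternion.normSq_def']
    simp only [Quaternion.re_add, Quaternion.imI_add, Quaternion.imJ_add, Quaternion.imK_add, Quaternion.re_smul,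
      Quaternion.imI_smul, Quaternion.imJ_smul, Quaternion.imK_smul, Quaternion.re_one, Quaternion.imI_one,
      Quaternion.imJ_one, Quaternion.imK_one, smul_eq_mul]
    unfold tt
    linear_combination β ^ 2 * h2
  have h3 := affine_power (1 + β) (β * (1 - tt x)) _ h1 n
  have h4 : ∀ r, DD n r * (tt x - 1) ^ r * (β ^ r * (1 + β) ^ (n - 2 * r)) =
      DD n r * (-(β * (1 - tt x))) ^ r * (1 + β) ^ (n - 2 * r) := by
    intro r
    have : -(β * (1 - tt x)) = (tt x - 1) * β := by ring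
    rw [this, mul_pow]
    ring
  rw [Finset.sum_congr rfl fun r _ => h4 r, ← h3]
  have h5 : ∀ y : G, ((1 + β + ip y (1 + β • (x : ℍ[ℝ]))) / 2) ^ n =
      ∑ L ∈ range (n + 1), ((n.choose L : ℝ) * β ^ L) * (tt y ^ (n - L) * tt (y⁻¹ * x) ^ L) := by
    intro y
    have h6 : (1 + β + ip y (1 + β • (x : ℍ[ℝ]))) / 2 = β * tt (y⁻¹ * x) + tt y := by
      rw [tt_inv_mul]
      unfold tt
      simp only [ip, Quaternion.re_add, Quaternion.imI_add, Quaternion.imJ_add, Quaternion.imK_add, Quaternion.re_smul,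
        Quaternion.imI_smul, Quaternion.imJ_smul, Quaternion.imK_smul, Quaternion.re_one, Quaternion.imI_one,
        Quaternion.imJ_one, Quaternion.imK_one, smul_eq_mul]
      ring
    rw [h6, add_pow]
    refine Finset.sum_congr rfl fun L _ => ?_
    rw [mul_pow]
    ring
  simp only [h5]
  have hi : ∀ L ∈ range (n + 1), Integrable (fun y : G => ((n.choose L : ℝ) * β ^ L) * (tt y ^ (n - L) * tt (y⁻¹ * x) ^ L)) haar :=
    fun L _ => (integ ((cont_tt.pow _).mul ((cont_tt' x).pow L))).const_mul _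
  rw [integral_finsetSum _ hi]
  refine Finset.sum_congr rfl fun L _ => ?_
  rw [integral_const_mul]
  ring

/-- comparison of the coefficients -/
theorem coef (n : ℕ) (x : G) (L : ℕ) (hL : L ≤ n) :
    (n.choose L : ℝ) * ∫ y, tt y ^ (n - L) * tt (y⁻¹ * x) ^ L ∂haar =
      ∑ r ∈ range (n + 1), DD n r * (tt x - 1) ^ r * (if r ≤ L then ((n - 2 * r).choose (L - r) : ℝ) else 0) := by
  let P : Polynomial ℝ := ∑ L ∈ range (n + 1), Polynomial.C
    ((n.choose L : ℝ) * ∫ y, tt y ^ (n - L) * tt (y⁻¹ * x) ^ L ∂haar) * Polynomial.X ^ L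
  let Q : Polynomial ℝ := ∑ r ∈ range (n + 1), Polynomial.C (DD n r * (tt x - 1) ^ r) *
    ((1 + Polynomial.X) ^ (n - 2 * r) * Polynomial.X ^ r)
  have hPQ : P = Q := by
    refine Polynomial.funext fun β => ?_
    simp only [P, Q, Polynomial.eval_finsetSum, Polynomial.eval_mul, Polynomial.eval_C, Polynomial.eval_pow,
      Polynomial.eval_X, Polynomial.eval_add, Polynomial.eval_one]
    rw [gen]
    exact Finset.sum_congr rfl fun r _ => by ring
  have hc := congrArg (fun R : Polynomial ℝ => R.coeff L) hPQ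
  have hP : P.coeff L = (n.choose L : ℝ) * ∫ y, tt y ^ (n - L) * tt (y⁻¹ * x) ^ L ∂haar := by
    simp only [P, Polynomial.finsetSum_coeff, Polynomial.coeff_C_mul, Polynomial.coeff_X_pow]
    rw [Finset.sum_eq_single L]
    · rw [if_pos rfl, mul_one]
    · intro b _ hb
      rw [if_neg (fun h => hb h.symm), mul_zero]
    · intro h
      exact absurd (Finset.mem_range.2 (by omega)) h
  have hQ : Q.coeff L = ∑ r ∈ range (n + 1), DD n r * (tt x - 1) ^ r * (if r ≤ L then ((n - 2 * r).choose (L - r) : ℝ) else 0) := by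
    simp only [Q, Polynomial.finsetSum_coeff, Polynomial.coeff_C_mul, Polynomial.coeff_mul_X_pow',
      Polynomial.coeff_one_add_X_pow]
  beta_reduce at hc
  rw [hP, hQ] at hc
  exact hc

/-- job GRP of project MK -/
theorem t_GRP (h1 : P_HYP1) : P_GRP := by
  intro K L x
  obtain ⟨-, -, -, -, hfac, -⟩ := h1 K L
  have hc := coef (K + L) x L (by omega)
  rw [show K + L - L = K by omega] at hc
  have hne : ((K + L).choose L : ℝ) ≠ 0 := by
    have : 0 < (K + L).choose L := Nat.choose_pos (by omega)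
    exact_mod_cast this.ne'
  -- the right hand side
  have hterm : ∀ r ∈ range (K + L + 1), DD (K + L) r * (tt x - 1) ^ r * (if r ≤ L then ((K + L - 2 * r).choose (L - r) : ℝ) else 0) =
      ((K + L).choose L : ℝ) * (I (K + L) * ((tt x - 1) ^ r * ((K.choose r : ℝ) * (L.choose r : ℝ) / gb (K + L + 1 / 2) r))) := by
    intro r _
    have h2 := DD_eq K L r
    have h3 : DD (K + L) r * (if r ≤ L then ((K + L - 2 * r).choose (L - r) : ℝ) else 0) =
        DD (K + L) r * ((K + L - 2 * r).choose (L - r) : ℝ) * (if r ≤ L ∧ r ≤ K then 1 else 0) := by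
      by_cases hrL : r ≤ L
      · by_cases hrK : r ≤ K
        · rw [if_pos hrL, if_pos ⟨hrL, hrK⟩, mul_one]
        · rw [if_pos hrL, if_neg (fun h => hrK h.2), mul_zero]
          rcases le_or_gt (2 * r) (K + L) with h | h
          · rw [Nat.choose_eq_zero_of_lt (by omega : K + L - 2 * r < L - r)]
            simp
          · rw [DD, XX_zero h]
            simp
      · rw [if_neg hrL, if_neg (fun h => hrL h.1), mul_zero, mul_zero]
    calc DD (K + L) r * (tt x - 1) ^ r * (if r ≤ L then ((K + L - 2 * r).choose (L - r) : ℝ) else 0)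
        = (tt x - 1) ^ r * (DD (K + L) r * (if r ≤ L then ((K + L - 2 * r).choose (L - r) : ℝ) else 0)) := by ring
      _ = _ := by rw [h3, h2]; ring
  rw [Finset.sum_congr rfl hterm, ← Finset.mul_sum] at hc
  have h5 := mul_left_cancel₀ hne hc
  rw [h5, ← Finset.mul_sum]
  congr 1
  -- factorial moments
  have h6 : ∀ j : ℕ, j ≤ K → tt x ^ j = ∑ r ∈ range (K + L + 1), (tt x - 1) ^ r * (j.choose r : ℝ) := by
    intro j hj
    have : tt x = (tt x - 1) + 1 := by ring
    conv_lhs => rw [this, add_pow]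
    have h7 : ∑ r ∈ range (j + 1), (tt x - 1) ^ r * 1 ^ (j - r) * (j.choose r : ℝ) =
        ∑ r ∈ range (j + 1), (tt x - 1) ^ r * (j.choose r : ℝ) :=
      Finset.sum_congr rfl fun r _ => by rw [one_pow, mul_one]
    rw [h7]
    refine Finset.sum_subset (Finset.range_subset_range.2 (by omega)) fun r _ hr => ?_
    have hr' : j + 1 ≤ r := by simpa using hr
    rw [Nat.choose_eq_zero_of_lt (by omega : j < r)]
    simp
  unfold H
  have h8 : ∀ j ∈ range (K + 1), hyp K L j * tt x ^ j = ∑ r ∈ range (K + L + 1), (tt x - 1) ^ r * (hyp K L j * (j.choose r : ℝ)) := by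
    intro j hj
    rw [h6 j (by have := Finset.mem_range.1 hj; omega), Finset.mul_sum]
    exact Finset.sum_congr rfl fun r _ => by ring
  rw [Finset.sum_congr rfl h8, Finset.sum_comm]
  refine Finset.sum_congr rfl fun r _ => ?_
  rw [← Finset.mul_sum]
  have h9 := hfac r
  unfold H at h9
  rw [h9]

end Pool.Agent.Q149.MK
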