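import Pool.Agent.Q291.MK.Stm

/-!
# Project MK, job GRP, part 1: closed forms and the binomial identity
-/

set_option autoImplicit false

namespace Pool.Agent.Q149.MK

open Finset Pool.Agent.Q291.MK

/-- coefficient of `X^m` in `(1+X)^(2N) = (1 + X (2 + X))^N` -/
theorem vand (N m : ℕ) : ∑ j ∈ range (m + 1), (N.choose j : ℝ) * (j.choose (m - j) : ℝ) * 2 ^ (2 * j - m) =
    ((2 * N).choose m : ℝ) := by
  have h1 : ((1 + Polynomial.X : Polynomial ℝ) ^ (2 * N)).coeff m = ((2 * N).choose m : ℝ) :=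
    Polynomial.coeff_one_add_X_pow ℝ (2 * N) m
  have h2 : (1 + Polynomial.X : Polynomial ℝ) ^ (2 * N) =
      ∑ j ∈ range (N + 1), Polynomial.C (N.choose j : ℝ) * ((Polynomial.X + Polynomial.C 2) ^ j * Polynomial.X ^ j) := by
    rw [pow_mul]
    have h3 : (1 + Polynomial.X : Polynomial ℝ) ^ 2 = (Polynomial.X + Polynomial.C 2) * Polynomial.X + 1 := by
      have : (Polynomial.C 2 : Polynomial ℝ) = 2 := rfl
      rw [this]
      ring
    rw [h3, add_pow]
    refine Finset.sum_congr rfl fun j _ => ?_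
    rw [one_pow, mul_one, mul_pow]
    rw [mul_comm]
    congr 1
  rw [← h1, h2, Polynomial.finsetSum_coeff]
  have h4 : ∀ j ∈ range (N + 1), (Polynomial.C (N.choose j : ℝ) * ((Polynomial.X + Polynomial.C 2) ^ j * Polynomial.X ^ j)).coeff m =
      if j ≤ m then (N.choose j : ℝ) * (j.choose (m - j) : ℝ) * 2 ^ (2 * j - m) else 0 := by
    intro j _
    rw [Polynomial.coeff_C_mul, Polynomial.coeff_mul_X_pow']
    split_ifs with h
    · rw [Polynomial.coeff_X_add_C_pow]
      have : j - (m - j) = 2 * j - m := by omega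
      rw [this]
      ring
    · simp
  rw [Finset.sum_congr rfl h4]
  have h5 : ∀ M : ℕ, M ≤ m + 1 + (N + 1) → (∀ j, M ≤ j → (if j ≤ m then (N.choose j : ℝ) * (j.choose (m - j) : ℝ) * 2 ^ (2 * j - m) else 0) = 0) →
      ∑ j ∈ range (m + 1 + (N + 1)), (if j ≤ m then (N.choose j : ℝ) * (j.choose (m - j) : ℝ) * 2 ^ (2 * j - m) else 0) =
      ∑ j ∈ range M, (if j ≤ m then (N.choose j : ℝ) * (j.choose (m - j) : ℝ) * 2 ^ (2 * j - m) else 0) := by
    intro M hM h
    symm
    refine Finset.sum_subset (Finset.range_subset_range.2 hM) fun j _ hj => ?_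
    exact h j (by simpa using hj)
  rw [← h5 (N + 1) (by omega) (fun j hj => by
      split_ifs
      · rw [Nat.choose_eq_zero_of_lt (by omega)]; simp
      · rfl),
    h5 (m + 1) (by omega) (fun j hj => if_neg (by omega))]
  refine Finset.sum_congr rfl fun j hj => ?_
  rw [if_pos (by have := Finset.mem_range.1 hj; omega)]

/-- even moments of the real part -/
noncomputable def mm : ℕ → ℝ
  | 0 => 1
  | (k+1) => mm k * ((2 * k + 1) / (2 * k + 4))

theorem mm_eq (k : ℕ) : mm k = ((2 * k).factorial : ℝ) / (k.factorial * (k + 1).factorial * 4 ^ k) := by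
  induction k with
  | zero => simp [mm]
  | succ k ih =>
    rw [mm, ih]
    have e1 : (2 * (k + 1)).factorial = (2 * k + 2) * ((2 * k + 1) * (2 * k).factorial) := by
      rw [show 2 * (k + 1) = 2 * k + 1 + 1 by ring, Nat.factorial_succ, Nat.factorial_succ]
    have e2 : (k + 1 + 1).factorial = (k + 2) * (k + 1).factorial := Nat.factorial_succ (k + 1)
    have e3 : (k + 1).factorial = (k + 1) * k.factorial := Nat.factorial_succ k
    rw [e1, e2]
    have h1 : (k.factorial : ℝ) ≠ 0 := by positivity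
    have h2 : ((k + 1).factorial : ℝ) ≠ 0 := by positivity
    have h3 : ((2 * k).factorial : ℝ) ≠ 0 := by positivity
    rw [div_mul_div_comm, div_eq_div_iff (by positivity) (by positivity)]
    push_cast [e3]
    ring

theorem I_eq (n : ℕ) : I n = ((2 * n + 2).factorial : ℝ) / ((n + 1).factorial * (n + 2).factorial * 4 ^ n) := by
  induction n with
  | zero => simp [I, Nat.factorial]
  | succ n ih =>
    rw [I, ih]
    have e1 : (2 * (n + 1) + 2).factorial = (2 * n + 4) * ((2 * n + 3) * (2 * n + 2).factorial) := by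
      rw [show 2 * (n + 1) + 2 = 2 * n + 2 + 1 + 1 by ring, Nat.factorial_succ, Nat.factorial_succ]
    have e2 : (n + 1 + 2).factorial = (n + 3) * (n + 2).factorial := Nat.factorial_succ (n + 2)
    have e3 : (n + 1 + 1).factorial = (n + 2) * (n + 1).factorial := Nat.factorial_succ (n + 1)
    rw [e1, e2, e3]
    rw [div_mul_div_comm, div_eq_div_iff (by positivity) (by positivity)]
    push_cast
    ring

theorem gb_eq (n r : ℕ) (hr : r ≤ n + 1) : gb (n + 1 / 2) r =
    ((2 * n + 2).factorial : ℝ) * ((n + 1 - r).factorial : ℝ) /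
      (((n + 1).factorial : ℝ) * ((2 * n + 2 - 2 * r).factorial : ℝ) * 4 ^ r * r.factorial) := by
  induction r with
  | zero =>
    simp only [gb]
    simp
    field_simp
  | succ r ih =>
    rw [gb, ih (by omega)]
    obtain ⟨l, rfl⟩ : ∃ l, n = r + l := ⟨n - r, by omega⟩
    have e1 : r + l + 1 - r = l + 1 := by omega
    have e2 : r + l + 1 - (r + 1) = l := by omega
    have e3 : 2 * (r + l) + 2 - 2 * r = 2 * l + 2 := by omega
    have e4 : 2 * (r + l) + 2 - 2 * (r + 1) = 2 * l := by omega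
    rw [e1, e2, e3, e4]
    have f1 : (2 * l + 2).factorial = (2 * l + 2) * ((2 * l + 1) * (2 * l).factorial) := by
      rw [show 2 * l + 2 = 2 * l + 1 + 1 by ring, Nat.factorial_succ, Nat.factorial_succ]
    have f2 : (l + 1).factorial = (l + 1) * l.factorial := Nat.factorial_succ l
    have f3 : (r + 1).factorial = (r + 1) * r.factorial := Nat.factorial_succ r
    rw [f1, f2, f3]
    rw [div_mul_eq_mul_div, div_div, div_eq_div_iff (by positivity) (by positivity)]
    push_cast
    ring

/-- the sum over the even moments -/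
noncomputable def XX (n r : ℕ) : ℝ := ∑ k ∈ range (n + 1), (n.choose (2 * k) : ℝ) * (k.choose r : ℝ) * mm k

theorem XX_zero {n r : ℕ} (h : n < 2 * r) : XX n r = 0 := by
  unfold XX
  refine Finset.sum_eq_zero fun k _ => ?_
  rcases le_or_gt r k with hk | hk
  · rw [Nat.choose_eq_zero_of_lt (by omega : n < 2 * k)]; simp
  · rw [Nat.choose_eq_zero_of_lt hk]; simp

theorem XX_term (m r i : ℕ) (h : 2 * i ≤ m) :
    ((m + 2 * r).choose (2 * (r + i)) : ℝ) * ((r + i).choose r : ℝ) * mm (r + i) =
      ((m + 2 * r).factorial : ℝ) / (r.factorial * 4 ^ r * 2 ^ m * (m + r + 1).factorial) *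
      (((m + r + 1).choose (m - i) : ℝ) * ((m - i).choose i : ℝ) * 2 ^ (m - 2 * i)) := by
  obtain ⟨l, rfl⟩ : ∃ l, m = 2 * i + l := ⟨m - 2 * i, by omega⟩
  have e1 : 2 * i + l - i = i + l := by omega
  have e2 : 2 * i + l - 2 * i = l := by omega
  rw [e1, e2, mm_eq]
  have c1 : ((2 * i + l + 2 * r).choose (2 * (r + i)) : ℝ) =
      ((2 * i + l + 2 * r).factorial : ℝ) / ((2 * (r + i)).factorial * l.factorial) := by
    rw [Nat.cast_choose ℝ (by omega), show 2 * i + l + 2 * r - 2 * (r + i) = l by omega]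
  have c2 : ((r + i).choose r : ℝ) = ((r + i).factorial : ℝ) / (r.factorial * i.factorial) := by
    rw [Nat.cast_choose ℝ (by omega), show r + i - r = i by omega]
  have c3 : ((2 * i + l + r + 1).choose (i + l) : ℝ) =
      ((2 * i + l + r + 1).factorial : ℝ) / ((i + l).factorial * (r + i + 1).factorial) := by
    rw [Nat.cast_choose ℝ (by omega), show 2 * i + l + r + 1 - (i + l) = r + i + 1 by omega]
  have c4 : ((i + l).choose i : ℝ) = ((i + l).factorial : ℝ) / (i.factorial * l.factorial) := by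
    rw [Nat.cast_choose ℝ (by omega), show i + l - i = l by omega]
  rw [c1, c2, c3, c4]
  have p1 : (2 : ℝ) ^ (2 * i + l) = 4 ^ i * 2 ^ l := by rw [pow_add, pow_mul]; norm_num
  rw [p1]
  field_simp
  ring

theorem XX_eq (m r : ℕ) : XX (m + 2 * r) r = ((m + 2 * r).factorial : ℝ) /
    (r.factorial * 4 ^ r * 2 ^ m * (m + r + 1).factorial) * ((2 * (m + r + 1)).choose m : ℝ) := by
  unfold XX
  rw [← vand (m + r + 1) m, Finset.mul_sum]
  -- only `r ≤ k ≤ r + m` matter
  have h1 : ∑ k ∈ range (m + 2 * r + 1), ((m + 2 * r).choose (2 * k) : ℝ) * (k.choose r : ℝ) * mm k =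
      ∑ i ∈ range (m + 1), ((m + 2 * r).choose (2 * (r + i)) : ℝ) * ((r + i).choose r : ℝ) * mm (r + i) := by
    have h2 : ∑ k ∈ range (r + (m + 1)), ((m + 2 * r).choose (2 * k) : ℝ) * (k.choose r : ℝ) * mm k =
        ∑ k ∈ range (m + 2 * r + 1), ((m + 2 * r).choose (2 * k) : ℝ) * (k.choose r : ℝ) * mm k := by
      refine Finset.sum_subset (Finset.range_subset_range.2 (by omega)) fun k _ hk => ?_
      have hk' : r + (m + 1) ≤ k := by simpa using hk
      rw [Nat.choose_eq_zero_of_lt (by omega : m + 2 * r < 2 * k)]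
      simp
    rw [← h2, Finset.sum_range_add, Finset.sum_eq_zero (s := range r), zero_add]
    intro k hk
    rw [Nat.choose_eq_zero_of_lt (Finset.mem_range.1 hk)]
    simp
  rw [h1]
  rw [← Finset.sum_range_reflect (fun j => ((m + 2 * r).factorial : ℝ) /
    (r.factorial * 4 ^ r * 2 ^ m * (m + r + 1).factorial) *
    (((m + r + 1).choose j : ℝ) * (j.choose (m - j) : ℝ) * 2 ^ (2 * j - m))) (m + 1)]
  refine Finset.sum_congr rfl fun i hi => ?_
  have hi' : i ≤ m := by have := Finset.mem_range.1 hi; omega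
  have e1 : m + 1 - 1 - i = m - i := by omega
  have e2 : m - (m - i) = i := by omega
  have e3 : 2 * (m - i) - m = m - 2 * i := by omega
  rw [e1, e2, e3]
  rcases le_or_gt (2 * i) m with h | h
  · exact XX_term m r i h
  · rw [Nat.choose_eq_zero_of_lt (by omega : m + 2 * r < 2 * (r + i)),
      Nat.choose_eq_zero_of_lt (by omega : m - i < i)]
    simp

/-- the coefficients of the expansion of the convolution -/
noncomputable def DD (n r : ℕ) : ℝ := (1 / 2) ^ n * 4 ^ r * XX n r

theorem DD_eq (K L r : ℕ) : DD (K + L) r * ((K + L - 2 * r).choose (L - r) : ℝ) * (if r ≤ L ∧ r ≤ K then 1 else 0) =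
    I (K + L) * ((K + L).choose L : ℝ) * ((K.choose r : ℝ) * (L.choose r : ℝ) / gb (K + L + 1 / 2) r) := by
  by_cases h : r ≤ L ∧ r ≤ K
  · rw [if_pos h, mul_one]
    obtain ⟨hL, hK⟩ := h
    obtain ⟨k, rfl⟩ : ∃ k, K = r + k := ⟨K - r, by omega⟩
    obtain ⟨l, rfl⟩ : ∃ l, L = r + l := ⟨L - r, by omega⟩
    have e0 : r + k + (r + l) = (k + l) + 2 * r := by ring
    have e1 : (k + l) + 2 * r - 2 * r = k + l := by omega
    have e2 : r + l - r = l := by omega
    have e3 : ((r + k : ℕ) : ℝ) + ((r + l : ℕ) : ℝ) + 1 / 2 = (((k + l) + 2 * r : ℕ) : ℝ) + 1 / 2 := by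
      push_cast; ring
    rw [e3, gb_eq _ _ (by omega), DD, e0, XX_eq, I_eq, e1, e2]
    have e4 : k + l + 2 * r + 1 - r = k + l + r + 1 := by omega
    have e5 : 2 * (k + l + 2 * r) + 2 - 2 * r = 2 * (k + l + r + 1) := by omega
    rw [e4, e5]
    have c1 : ((2 * (k + l + r + 1)).choose (k + l) : ℝ) =
        ((2 * (k + l + r + 1)).factorial : ℝ) / ((k + l).factorial * (k + l + 2 * r + 2).factorial) := by
      rw [Nat.cast_choose ℝ (by omega), show 2 * (k + l + r + 1) - (k + l) = k + l + 2 * r + 2 by omega]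
    have c2 : ((k + l).choose l : ℝ) = ((k + l).factorial : ℝ) / (l.factorial * k.factorial) := by
      rw [Nat.cast_choose ℝ (by omega), show k + l - l = k by omega]
    have c3 : ((k + l + 2 * r).choose (r + l) : ℝ) =
        ((k + l + 2 * r).factorial : ℝ) / ((r + l).factorial * (r + k).factorial) := by
      rw [Nat.cast_choose ℝ (by omega), show k + l + 2 * r - (r + l) = r + k by omega]
    have c4 : ((r + k).choose r : ℝ) = ((r + k).factorial : ℝ) / (r.factorial * k.factorial) := by
      rw [Nat.cast_choose ℝ (by omega), show r + k - r = k by omega]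
    have c5 : ((r + l).choose r : ℝ) = ((r + l).factorial : ℝ) / (r.factorial * l.factorial) := by
      rw [Nat.cast_choose ℝ (by omega), show r + l - r = l by omega]
    rw [c1, c2, c3, c4, c5]
    have p1 : (4 : ℝ) ^ (k + l + 2 * r) = 2 ^ (k + l + 2 * r) * 2 ^ (k + l) * 4 ^ r := by
      have : (4 : ℝ) = 2 ^ 2 := by norm_num
      rw [this, ← pow_mul, ← pow_mul, ← pow_add, ← pow_add]
      congr 1
      ring
    rw [p1, one_div, inv_pow]
    field_simp
  · rw [if_neg h, mul_zero]
    have h' : L < r ∨ K < r := by omega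
    rcases h' with h' | h'
    · rw [Nat.choose_eq_zero_of_lt h']; simp
    · rw [Nat.choose_eq_zero_of_lt h']; simp

end Pool.Agent.Q149.MK
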