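import Pool.Agent.Q149.MK.G1

/-!
# Project MK, job GRP, part 2: moments of linear functionals on the unit quaternions
-/

set_option autoImplicit false

namespace Pool.Agent.Q149.MK

open Finset Pool.Agent.Q291.MK MeasureTheory Quaternion

/-- the inner product -/
def ip (y w : ℍ[ℝ]) : ℝ := y.re * w.re + y.imI * w.imI + y.imJ * w.imJ + y.imK * w.imK

theorem cont_re : Continuous fun y : G => (y : ℍ[ℝ]).re := Quaternion.continuous_re.comp continuous_subtype_val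

theorem cont_imI : Continuous fun y : G => (y : ℍ[ℝ]).imI := Quaternion.continuous_imI.comp continuous_subtype_val

theorem cont_imJ : Continuous fun y : G => (y : ℍ[ℝ]).imJ := Quaternion.continuous_imJ.comp continuous_subtype_val

theorem cont_imK : Continuous fun y : G => (y : ℍ[ℝ]).imK := Quaternion.continuous_imK.comp continuous_subtype_val

theorem cont_ip (w : ℍ[ℝ]) : Continuous fun y : G => ip y w := by
  unfold ip
  exact (((cont_re.mul continuous_const).add (cont_imI.mul continuous_const)).add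
    (cont_imJ.mul continuous_const)).add (cont_imK.mul continuous_const)

theorem integ {f : G → ℝ} (hf : Continuous f) : Integrable f haar :=
  hf.integrable_of_hasCompactSupport (HasCompactSupport.of_compactSpace f)

theorem norm_G (y : G) : ‖(y : ℍ[ℝ])‖ = 1 := by
  simp

theorem normSq_G (y : G) : (y : ℍ[ℝ]).re ^ 2 + (y : ℍ[ℝ]).imI ^ 2 + (y : ℍ[ℝ]).imJ ^ 2 + (y : ℍ[ℝ]).imK ^ 2 = 1 := by
  rw [← Quaternion.normSq_def', Quaternion.normSq_eq_norm_mul_self, norm_G, mul_one]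

theorem coe_inv_G (y : G) : ((y⁻¹ : G) : ℍ[ℝ]) = star (y : ℍ[ℝ]) := by
  have h1 : ((y⁻¹ : G) : ℍ[ℝ]) = ((y : ℍ[ℝ]))⁻¹ := rfl
  rw [h1, Quaternion.inv_def, Quaternion.normSq_eq_norm_mul_self, norm_G]
  simp

theorem re_inv_mul (y : G) (w : ℍ[ℝ]) : (((y⁻¹ : G) : ℍ[ℝ]) * w).re = ip y w := by
  rw [coe_inv_G, Quaternion.re_mul]
  simp [ip]

theorem re_inv_mul' (y : G) (z : G) : (((y⁻¹ : G) : ℍ[ℝ]) * (z : ℍ[ℝ])).re = ip z y := by
  rw [re_inv_mul]
  unfold ip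
  ring

/-- the moments of a linear functional only depend on its norm -/
theorem moment (w : ℍ[ℝ]) (k : ℕ) : ∫ y, ip y w ^ k ∂haar = ‖w‖ ^ k * ∫ y : G, (y : ℍ[ℝ]).re ^ k ∂haar := by
  rcases eq_or_ne w 0 with rfl | hw
  · rcases Nat.eq_zero_or_pos k with rfl | hk
    · simp
    · have h1 : ∀ y : G, ip y 0 ^ k = 0 := fun y => by
        simp [ip, hk.ne']
      simp only [h1]
      simp [hk.ne']
  · have hn : ‖w‖ ≠ 0 := norm_ne_zero_iff.2 hw
    have hmem : ‖w‖⁻¹ • w ∈ Metric.sphere (0 : ℍ[ℝ]) 1 := by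
      rw [mem_sphere_zero_iff_norm, norm_smul, norm_inv, norm_norm, inv_mul_cancel₀ hn]
    have h1 : ∀ y : G, ip y w = ‖w‖ * ((((⟨_, hmem⟩ : G)⁻¹ * y : G) : ℍ[ℝ]).re) := by
      intro y
      have h2 : (((⟨‖w‖⁻¹ • w, hmem⟩ : G)⁻¹ * y : G) : ℍ[ℝ]) =
          (((⟨‖w‖⁻¹ • w, hmem⟩ : G)⁻¹ : G) : ℍ[ℝ]) * (y : ℍ[ℝ]) := rfl
      rw [h2, re_inv_mul']
      unfold ip
      simp only [Quaternion.re_smul, Quaternion.imI_smul, Quaternion.imJ_smul, Quaternion.imK_smul, smul_eq_mul]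
      field_simp
    have h3 : ∀ y : G, ip y w ^ k = ‖w‖ ^ k * ((((⟨_, hmem⟩ : G)⁻¹ * y : G) : ℍ[ℝ]).re) ^ k := by
      intro y
      rw [h1, mul_pow]
    simp only [h3]
    rw [integral_const_mul]
    congr 1
    exact integral_mul_left_eq_self (fun y : G => (y : ℍ[ℝ]).re ^ k) _

/-- odd moments -/
theorem odd_moment (k : ℕ) : ∫ y : G, (y : ℍ[ℝ]).re ^ (2 * k + 1) ∂haar = 0 := by
  have h := moment (-1) (2 * k + 1)
  have h1 : ∀ y : G, ip y (-1) ^ (2 * k + 1) = -((y : ℍ[ℝ]).re ^ (2 * k + 1)) := by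
    intro y
    have : ip y (-1) = -(y : ℍ[ℝ]).re := by simp [ip]
    rw [this, neg_pow, pow_succ, pow_mul]
    simp
  simp only [h1] at h
  rw [integral_neg, norm_neg, norm_one, one_pow, one_mul] at h
  linarith

/-- the mixed moments -/
theorem mixed (w : ℍ[ℝ]) (hw0 : w.re = 0) (hw : ‖w‖ = 1) (k : ℕ) :
    ∫ y : G, (y : ℍ[ℝ]).re ^ (2 * k) * ip y w ^ 2 ∂haar =
      (∫ y : G, (y : ℍ[ℝ]).re ^ (2 * k + 2) ∂haar) / (2 * k + 1) := by
  set m : ℝ := ∫ y : G, (y : ℍ[ℝ]).re ^ (2 * k + 2) ∂haar with hm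
  let P : Polynomial ℝ := ∑ l ∈ range (2 * k + 2 + 1), Polynomial.C
    (((2 * k + 2).choose l : ℝ) * ∫ y : G, (y : ℍ[ℝ]).re ^ (2 * k + 2 - l) * ip y w ^ l ∂haar) * Polynomial.X ^ l
  let Q : Polynomial ℝ := Polynomial.C m * (Polynomial.expand ℝ 2) ((1 + Polynomial.X) ^ (k + 1))
  have hPQ : P = Q := by
    refine Polynomial.funext fun β => ?_
    have h1 : Q.eval β = m * (1 + β ^ 2) ^ (k + 1) := by
      simp only [Q, Polynomial.eval_mul, Polynomial.eval_C, Polynomial.expand_eval, Polynomial.eval_pow,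
        Polynomial.eval_add, Polynomial.eval_one, Polynomial.eval_X]
    have hns : ‖(1 : ℍ[ℝ]) + β • w‖ ^ 2 = 1 + β ^ 2 := by
      have h2 : ‖w‖ ^ 2 = w.re ^ 2 + w.imI ^ 2 + w.imJ ^ 2 + w.imK ^ 2 := by
        rw [← Quaternion.normSq_def', Quaternion.normSq_eq_norm_mul_self, sq]
      rw [sq, ← Quaternion.normSq_eq_norm_mul_self, Quaternion.normSq_def']
      simp only [Quaternion.re_add, Quaternion.imI_add, Quaternion.imJ_add, Quaternion.imK_add, Quaternion.re_smul,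
        Quaternion.imI_smul, Quaternion.imJ_smul, Quaternion.imK_smul, Quaternion.re_one, Quaternion.imI_one,
        Quaternion.imJ_one, Quaternion.imK_one, smul_eq_mul]
      rw [hw, hw0] at h2
      rw [hw0]
      linear_combination (-β ^ 2) * h2
    have h3 := moment ((1 : ℍ[ℝ]) + β • w) (2 * k + 2)
    have h4 : ‖(1 : ℍ[ℝ]) + β • w‖ ^ (2 * k + 2) = (1 + β ^ 2) ^ (k + 1) := by
      rw [← hns, ← pow_mul]
      congr 1
    rw [h1, mul_comm, ← h4, hm, ← h3]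
    have h5 : ∀ y : G, ip y (1 + β • w) ^ (2 * k + 2) = ∑ l ∈ range (2 * k + 2 + 1),
        (((2 * k + 2).choose l : ℝ) * β ^ l) * ((y : ℍ[ℝ]).re ^ (2 * k + 2 - l) * ip y w ^ l) := by
      intro y
      have h6 : ip y (1 + β • w) = β * ip y w + (y : ℍ[ℝ]).re := by
        simp only [ip, Quaternion.re_add, Quaternion.imI_add, Quaternion.imJ_add, Quaternion.imK_add, Quaternion.re_smul,
          Quaternion.imI_smul, Quaternion.imJ_smul, Quaternion.imK_smul, Quaternion.re_one, Quaternion.imI_one,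
          Quaternion.imJ_one, Quaternion.imK_one, smul_eq_mul]
        ring
      rw [h6, add_pow]
      refine Finset.sum_congr rfl fun l _ => ?_
      rw [mul_pow]
      ring
    simp only [h5]
    rw [integral_finsetSum]
    · simp only [P, Polynomial.eval_finsetSum, Polynomial.eval_mul, Polynomial.eval_C, Polynomial.eval_pow,
        Polynomial.eval_X]
      refine Finset.sum_congr rfl fun l _ => ?_
      rw [integral_const_mul]
      ring
    · intro l _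
      exact (integ ((cont_re.pow _).mul ((cont_ip w).pow _))).const_mul _
  have hc := congrArg (fun R : Polynomial ℝ => R.coeff 2) hPQ
  have hP2 : P.coeff 2 = ((2 * k + 2).choose 2 : ℝ) * ∫ y : G, (y : ℍ[ℝ]).re ^ (2 * k) * ip y w ^ 2 ∂haar := by
    simp only [P, Polynomial.finsetSum_coeff, Polynomial.coeff_C_mul, Polynomial.coeff_X_pow]
    rw [Finset.sum_eq_single 2]
    · rw [if_pos rfl, mul_one, show 2 * k + 2 - 2 = 2 * k by omega]
    · intro b _ hb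
      rw [if_neg (fun h => hb h.symm), mul_zero]
    · intro h
      exact absurd (Finset.mem_range.2 (by omega)) h
  have hQ2 : Q.coeff 2 = m * (k + 1) := by
    simp only [Q, Polynomial.coeff_C_mul]
    have : ((Polynomial.expand ℝ 2) ((1 + Polynomial.X : Polynomial ℝ) ^ (k + 1))).coeff 2 =
        ((1 + Polynomial.X : Polynomial ℝ) ^ (k + 1)).coeff 1 := by
      have h := Polynomial.coeff_expand_mul (R := ℝ) (p := 2) (by norm_num) ((1 + Polynomial.X : Polynomial ℝ) ^ (k + 1)) 1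
      simpa using h
    rw [this, Polynomial.coeff_one_add_X_pow]
    simp
  beta_reduce at hc
  rw [hP2, hQ2] at hc
  have h7 : ((2 * k + 2).choose 2 : ℝ) = (k + 1) * (2 * k + 1) := by
    rw [Nat.cast_choose_two]
    push_cast
    ring
  rw [h7] at hc
  have h8 : (0 : ℝ) < 2 * k + 1 := by positivity
  have h9 : (0 : ℝ) < (k : ℝ) + 1 := by positivity
  rw [eq_div_iff h8.ne']
  have h10 : ((k : ℝ) + 1) * ((∫ y : G, (y : ℍ[ℝ]).re ^ (2 * k) * ip y w ^ 2 ∂haar) * (2 * k + 1)) = ((k : ℝ) + 1) * m := by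
    linear_combination hc
  exact mul_left_cancel₀ h9.ne' h10

/-- the unit `i` -/
def qI : ℍ[ℝ] := ⟨0, 1, 0, 0⟩
/-- the unit `j` -/
def qJ : ℍ[ℝ] := ⟨0, 0, 1, 0⟩
/-- the unit `k` -/
def qK : ℍ[ℝ] := ⟨0, 0, 0, 1⟩

theorem norm_one_of {w : ℍ[ℝ]} (h : w.re ^ 2 + w.imI ^ 2 + w.imJ ^ 2 + w.imK ^ 2 = 1) : ‖w‖ = 1 := by
  rw [← sq_eq_sq₀ (norm_nonneg _) zero_le_one, sq, ← Quaternion.normSq_eq_norm_mul_self, Quaternion.normSq_def', h]
  norm_num

theorem ip_qI (y : ℍ[ℝ]) : ip y qI = y.imI := by simp [ip, qI]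
theorem ip_qJ (y : ℍ[ℝ]) : ip y qJ = y.imJ := by simp [ip, qJ]
theorem ip_qK (y : ℍ[ℝ]) : ip y qK = y.imK := by simp [ip, qK]

theorem even_moment (k : ℕ) : ∫ y : G, (y : ℍ[ℝ]).re ^ (2 * k) ∂haar = mm k := by
  induction k with
  | zero => simp [mm]
  | succ k ih =>
    set m : ℝ := ∫ y : G, (y : ℍ[ℝ]).re ^ (2 * (k + 1)) ∂haar with hm
    have e0 : 2 * (k + 1) = 2 * k + 2 := by ring
    have hI := mixed qI rfl (norm_one_of (by simp [qI])) k
    have hJ := mixed qJ rfl (norm_one_of (by simp [qJ])) k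
    have hK := mixed qK rfl (norm_one_of (by simp [qK])) k
    rw [← e0, ← hm] at hI hJ hK
    simp only [ip_qI] at hI
    simp only [ip_qJ] at hJ
    simp only [ip_qK] at hK
    have hsum : ∫ y : G, (y : ℍ[ℝ]).re ^ (2 * k) ∂haar = m + m / (2 * k + 1) + m / (2 * k + 1) + m / (2 * k + 1) := by
      have h1 : ∀ y : G, (y : ℍ[ℝ]).re ^ (2 * k) = (y : ℍ[ℝ]).re ^ (2 * (k + 1)) + (y : ℍ[ℝ]).re ^ (2 * k) * (y : ℍ[ℝ]).imI ^ 2 +
          (y : ℍ[ℝ]).re ^ (2 * k) * (y : ℍ[ℝ]).imJ ^ 2 + (y : ℍ[ℝ]).re ^ (2 * k) * (y : ℍ[ℝ]).imK ^ 2 := by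
        intro y
        have := normSq_G y
        rw [e0, pow_add]
        linear_combination (-(y : ℍ[ℝ]).re ^ (2 * k)) * this
      have c0 : Integrable (fun y : G => (y : ℍ[ℝ]).re ^ (2 * (k + 1))) haar := integ (cont_re.pow (2 * (k + 1)))
      have cI : Integrable (fun y : G => (y : ℍ[ℝ]).re ^ (2 * k) * (y : ℍ[ℝ]).imI ^ 2) haar :=
        integ ((cont_re.pow (2 * k)).mul (cont_imI.pow 2))
      have cJ : Integrable (fun y : G => (y : ℍ[ℝ]).re ^ (2 * k) * (y : ℍ[ℝ]).imJ ^ 2) haar :=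
        integ ((cont_re.pow (2 * k)).mul (cont_imJ.pow 2))
      have cK : Integrable (fun y : G => (y : ℍ[ℝ]).re ^ (2 * k) * (y : ℍ[ℝ]).imK ^ 2) haar :=
        integ ((cont_re.pow (2 * k)).mul (cont_imK.pow 2))
      have s1 : Integrable (fun y : G => (y : ℍ[ℝ]).re ^ (2 * (k + 1)) + (y : ℍ[ℝ]).re ^ (2 * k) * (y : ℍ[ℝ]).imI ^ 2) haar := c0.add cI
      have s2 : Integrable (fun y : G => (y : ℍ[ℝ]).re ^ (2 * (k + 1)) + (y : ℍ[ℝ]).re ^ (2 * k) * (y : ℍ[ℝ]).imI ^ 2 +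
          (y : ℍ[ℝ]).re ^ (2 * k) * (y : ℍ[ℝ]).imJ ^ 2) haar := s1.add cJ
      calc ∫ y : G, (y : ℍ[ℝ]).re ^ (2 * k) ∂haar
          = ∫ y : G, ((y : ℍ[ℝ]).re ^ (2 * (k + 1)) + (y : ℍ[ℝ]).re ^ (2 * k) * (y : ℍ[ℝ]).imI ^ 2 +
          (y : ℍ[ℝ]).re ^ (2 * k) * (y : ℍ[ℝ]).imJ ^ 2 + (y : ℍ[ℝ]).re ^ (2 * k) * (y : ℍ[ℝ]).imK ^ 2) ∂haar :=
            integral_congr_ae (Filter.Eventually.of_forall h1)
        _ = _ := by rw [integral_add s2 cK, integral_add s1 cJ, integral_add c0 cI, hI, hJ, hK]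
    rw [ih] at hsum
    rw [mm, hsum]
    have h8 : (0 : ℝ) < 2 * k + 1 := by positivity
    field_simp
    ring

end Pool.Agent.Q149.MK
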