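import Pool.Agent.Q291.MK.Stm

/-!
# Project MK, job T3: third central moment of `T a`
-/

set_option autoImplicit false

namespace Pool.Agent.Q149.MK

open Finset Pool.Agent.Q291.MK

/-! ### linearity of `H` -/

theorem H_add (K L : ℕ) (φ ψ : ℕ → ℝ) : H K L (fun j => φ j + ψ j) = H K L φ + H K L ψ := by
  unfold H
  rw [← Finset.sum_add_distrib]
  exact Finset.sum_congr rfl fun j _ => by ring

theorem H_cmul (K L : ℕ) (c : ℝ) (φ : ℕ → ℝ) : H K L (fun j => c * φ j) = c * H K L φ := by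
  unfold H
  rw [Finset.mul_sum]
  exact Finset.sum_congr rfl fun j _ => by ring

/-- third moment around any point -/
theorem H_cube (h1 : P_HYP1) (K L : ℕ) (c : ℝ) : H K L (fun j => ((j : ℝ) - c) ^ 3) =
    h3 K L + 3 * hv K L * (hm K L - c) + (hm K L - c) ^ 3 := by
  obtain ⟨-, -, -, hone, -, -, hmean, hvar, hthree⟩ := h1 K L
  have e : (fun j : ℕ => ((j : ℝ) - c) ^ 3) = fun j : ℕ => (((j : ℝ) - hm K L) ^ 3 + (3 * (hm K L - c)) * ((j : ℝ) - hm K L) ^ 2) +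
      ((3 * (hm K L - c) ^ 2) * (j : ℝ) + ((hm K L - c) ^ 3 - 3 * (hm K L - c) ^ 2 * hm K L) * 1) := by
    funext j
    ring
  rw [e, H_add, H_add, H_add, H_cmul, H_cmul, H_cmul, hthree, hvar, hmean, hone]
  ring

/-! ### pointwise bounds -/

/-- the quantity `(K - L)^2 / (K + L + 1/2)` -/
noncomputable def gg (K L : ℕ) : ℝ := ((K : ℝ) - L) ^ 2 / (K + L + 1 / 2)

theorem gg_nonneg (K L : ℕ) : 0 ≤ gg K L := by
  unfold gg
  positivity

theorem hm_eq (K L : ℕ) : 4 * hm K L = (K : ℝ) + L - 1 / 2 + 1 / 4 / ((K : ℝ) + L + 1 / 2) - gg K L := by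
  unfold hm gg
  have : (0 : ℝ) < (K : ℝ) + L + 1 / 2 := by positivity
  field_simp
  ring

theorem hm_nonneg (K L : ℕ) : 0 ≤ hm K L := by
  unfold hm
  positivity

theorem quarter_le (K L : ℕ) : 1 / 4 / ((K : ℝ) + L + 1 / 2) ≤ 1 / 2 ∧ 0 ≤ 1 / 4 / ((K : ℝ) + L + 1 / 2) := by
  have h0 : (0 : ℝ) ≤ K := Nat.cast_nonneg K
  have h1 : (0 : ℝ) ≤ L := Nat.cast_nonneg L
  refine ⟨?_, by positivity⟩
  rw [div_le_iff₀ (by positivity)]
  linarith

theorem hm_le (K L : ℕ) : hm K L ≤ ((K : ℝ) + L) / 4 := by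
  have h1 := hm_eq K L
  have h2 := gg_nonneg K L
  have h3 := quarter_le K L
  linarith [h3.1]

theorem hv_zero {K L : ℕ} (h : K = 0 ∨ L = 0) : hv K L = 0 := by
  have : hm K L = 0 := by
    unfold hm
    rcases h with rfl | rfl <;> simp
  unfold hv
  rw [this]
  simp

theorem n_ge_two {K L : ℕ} (h : ¬ (K = 0 ∨ L = 0)) : (2 : ℝ) ≤ (K : ℝ) + L := by
  push Not at h
  have h1 : 1 ≤ K := Nat.one_le_iff_ne_zero.2 h.1
  have h2 : 1 ≤ L := Nat.one_le_iff_ne_zero.2 h.2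
  have h3 : (1 : ℝ) ≤ K := by exact_mod_cast h1
  have h4 : (1 : ℝ) ≤ L := by exact_mod_cast h2
  linarith

theorem hv_bounds (K L : ℕ) : 0 ≤ hv K L ∧ hv K L ≤ ((K : ℝ) + L) / 2 := by
  by_cases h : K = 0 ∨ L = 0
  · rw [hv_zero h]
    exact ⟨le_rfl, by positivity⟩
  · have hn := n_ge_two h
    have h1 := hm_nonneg K L
    have h2 := hm_le K L
    unfold hv
    have h3 : (0 : ℝ) < (K : ℝ) + L - 1 / 2 := by linarith
    refine ⟨by positivity, ?_⟩
    rw [div_le_iff₀ h3]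
    nlinarith

theorem h3_bound (K L : ℕ) : |h3 K L| ≤ 3 * (1 + gg K L) := by
  by_cases h : K = 0 ∨ L = 0
  · unfold h3
    rw [hv_zero h]
    simp
    have := gg_nonneg K L
    positivity
  · have hn := n_ge_two h
    obtain ⟨v0, v1⟩ := hv_bounds K L
    have hg := gg_nonneg K L
    set n : ℝ := (K : ℝ) + L with hnd
    have hd : (0 : ℝ) < n + 1 / 2 := by linarith
    have hd2 : (0 : ℝ) < n - 3 / 2 := by linarith
    have hgd : ((K : ℝ) - L) ^ 2 = gg K L * (n + 1 / 2) := by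
      unfold gg
      rw [← hnd]
      field_simp
    unfold h3
    rw [← hnd, abs_div, abs_mul, abs_of_nonneg v0, abs_of_pos (mul_pos hd hd2), div_le_iff₀ (mul_pos hd hd2), hgd]
    have h5 : |1 / 4 - gg K L * (n + 1 / 2)| ≤ 1 / 4 + gg K L * (n + 1 / 2) := by
      rw [abs_le]
      constructor
      · nlinarith
      · nlinarith
    have h6 : 1 / 4 + gg K L * (n + 1 / 2) ≤ (1 + gg K L) * (n + 1 / 2) := by nlinarith
    calc hv K L * |1 / 4 - gg K L * (n + 1 / 2)| ≤ (n / 2) * ((1 + gg K L) * (n + 1 / 2)) :=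
          mul_le_mul v1 (h5.trans h6) (abs_nonneg _) (by linarith)
      _ ≤ 3 * (1 + gg K L) * ((n + 1 / 2) * (n - 3 / 2)) := by
          have h7 : n / 2 ≤ 3 * (n - 3 / 2) := by linarith
          have h8 : 0 ≤ (1 + gg K L) * (n + 1 / 2) := by positivity
          nlinarith

theorem hv_sub (K L : ℕ) : |hv K L - ((K : ℝ) + L) / 16| ≤ 1 + gg K L := by
  have hg := gg_nonneg K L
  by_cases h : K = 0 ∨ L = 0
  · rw [hv_zero h, zero_sub, abs_neg, abs_of_nonneg (by positivity)]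
    rcases h with rfl | rfl
    · unfold gg
      have h0 : (0 : ℝ) ≤ L := Nat.cast_nonneg L
      simp only [Nat.cast_zero, zero_add, zero_sub, neg_sq]
      have h1 : (L : ℝ) - 1 / 2 ≤ (L : ℝ) ^ 2 / (L + 1 / 2) := by
        rw [le_div_iff₀ (by positivity)]
        nlinarith
      linarith
    · unfold gg
      have h0 : (0 : ℝ) ≤ K := Nat.cast_nonneg K
      simp only [Nat.cast_zero, add_zero, sub_zero]
      have h1 : (K : ℝ) - 1 / 2 ≤ (K : ℝ) ^ 2 / (K + 1 / 2) := by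
        rw [le_div_iff₀ (by positivity)]
        nlinarith
      linarith
  · have hn := n_ge_two h
    have e := hm_eq K L
    have hle := hm_le K L
    have h0 := hm_nonneg K L
    obtain ⟨q1, q0⟩ := quarter_le K L
    set n : ℝ := (K : ℝ) + L with hnd
    set g := gg K L
    set m := hm K L with hmd
    have hd : (0 : ℝ) < n - 1 / 2 := by linarith
    unfold hv
    rw [← hmd, ← hnd]
    -- `m = n/4 - 1/8 + r`
    set r : ℝ := m - n / 4 + 1 / 8 with hr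
    have hr1 : r ≤ 1 / 8 := by rw [hr]; linarith
    have hr2 : -(g / 4) ≤ r := by rw [hr]; linarith
    have hr3 : 1 / 8 - r ≤ n / 4 := by rw [hr]; linarith
    have hr4 : 0 ≤ 1 / 8 - r := by linarith
    have hr5 : |r + 3 / 8| ≤ g / 4 + 1 / 2 := by
      rw [abs_le]
      constructor <;> linarith
    have key : m * (m + 1 / 2) / (n - 1 / 2) - n / 16 = (n * (3 / 32 + r / 2) - (1 / 8 - r) * (r + 3 / 8)) / (n - 1 / 2) := by
      have hm2 : m = n / 4 - 1 / 8 + r := by rw [hr]; ring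
      rw [eq_div_iff hd.ne', sub_mul, div_mul_cancel₀ _ hd.ne']
      rw [hm2]
      ring
    rw [key, abs_div, abs_of_pos hd, div_le_iff₀ hd]
    have a1 : |n * (3 / 32 + r / 2)| ≤ n * (3 / 32 + (1 / 8 + g / 4) / 2) := by
      rw [abs_mul, abs_of_nonneg (by linarith : (0 : ℝ) ≤ n)]
      refine mul_le_mul_of_nonneg_left ?_ (by linarith)
      rw [abs_le]
      constructor <;> linarith
    have a2 : |(1 / 8 - r) * (r + 3 / 8)| ≤ (n / 4) * (g / 4 + 1 / 2) := by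
      rw [abs_mul, abs_of_nonneg hr4]
      exact mul_le_mul hr3 hr5 (abs_nonneg _) (by linarith)
    calc |n * (3 / 32 + r / 2) - (1 / 8 - r) * (r + 3 / 8)| ≤ |n * (3 / 32 + r / 2)| + |(1 / 8 - r) * (r + 3 / 8)| := abs_sub _ _
      _ ≤ n * (3 / 32 + (1 / 8 + g / 4) / 2) + (n / 4) * (g / 4 + 1 / 2) := add_le_add a1 a2
      _ ≤ (1 + g) * (n - 1 / 2) := by nlinarith

/-- the main pointwise inequality -/
theorem pointwise {X R g v t : ℝ} (hg : 0 ≤ g) (hR : |R| ≤ 4 + g) (hv : |v| ≤ 1 + g) (ht : |t| ≤ 3 * (1 + g)) :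
    |t + 3 / 64 * (X * (X + R)) + 3 / 4 * (v * (X + R)) + 1 / 64 * (3 * X ^ 2 * R + 3 * X * R ^ 2 + R ^ 3)| ≤
      30 * (1 + g + g ^ 2 + g ^ 3 + X ^ 2 + X ^ 2 * g) := by
  have hX0 := abs_nonneg X
  have hXs : |X| ^ 2 = X ^ 2 := sq_abs X
  have hR0 := abs_nonneg R
  set x := |X| with hx
  set ρ := |R| with hρ
  have b1 : |X * (X + R)| ≤ x * (x + ρ) := by
    rw [abs_mul]
    exact mul_le_mul_of_nonneg_left (abs_add_le X R) hX0
  have b2 : |v * (X + R)| ≤ (1 + g) * (x + ρ) := by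
    rw [abs_mul]
    exact mul_le_mul hv (abs_add_le X R) (abs_nonneg _) (by linarith)
  have b3 : |3 * X ^ 2 * R + 3 * X * R ^ 2 + R ^ 3| ≤ 3 * x ^ 2 * ρ + 3 * x * ρ ^ 2 + ρ ^ 3 := by
    refine (abs_add_le _ _).trans (add_le_add ((abs_add_le _ _).trans (add_le_add ?_ ?_)) ?_)
    · rw [abs_mul, abs_mul, abs_pow]
      simp [hx, hρ]
    · rw [abs_mul, abs_mul, abs_pow]
      simp [hx, hρ]
    · rw [abs_pow]
  have b0 : |t + 3 / 64 * (X * (X + R)) + 3 / 4 * (v * (X + R)) + 1 / 64 * (3 * X ^ 2 * R + 3 * X * R ^ 2 + R ^ 3)| ≤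
      3 * (1 + g) + 3 / 64 * (x * (x + ρ)) + 3 / 4 * ((1 + g) * (x + ρ)) + 1 / 64 * (3 * x ^ 2 * ρ + 3 * x * ρ ^ 2 + ρ ^ 3) := by
    refine (abs_add_le _ _).trans (add_le_add ((abs_add_le _ _).trans (add_le_add ((abs_add_le _ _).trans (add_le_add ht ?_)) ?_)) ?_)
    · rw [abs_mul, abs_of_pos (by norm_num : (0 : ℝ) < 3 / 64)]
      exact mul_le_mul_of_nonneg_left b1 (by norm_num)
    · rw [abs_mul, abs_of_pos (by norm_num : (0 : ℝ) < 3 / 4)]
      exact mul_le_mul_of_nonneg_left b2 (by norm_num)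
    · rw [abs_mul, abs_of_pos (by norm_num : (0 : ℝ) < 1 / 64)]
      exact mul_le_mul_of_nonneg_left b3 (by norm_num)
  refine b0.trans ?_
  -- replace `ρ` by `4 + g`
  have c1 : x * (x + ρ) ≤ x * (x + (4 + g)) := by gcongr
  have c2 : (1 + g) * (x + ρ) ≤ (1 + g) * (x + (4 + g)) := by gcongr
  have c3 : 3 * x ^ 2 * ρ + 3 * x * ρ ^ 2 + ρ ^ 3 ≤ 3 * x ^ 2 * (4 + g) + 3 * x * (4 + g) ^ 2 + (4 + g) ^ 3 := by gcongr
  have d1 : x ≤ (1 + x ^ 2) / 2 := by nlinarith [sq_nonneg (x - 1)]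
  have d2 : x * g ≤ (x ^ 2 + g ^ 2) / 2 := by nlinarith [sq_nonneg (x - g)]
  have d3 : x * g ^ 2 ≤ (x ^ 2 * g + g ^ 3) / 2 := by
    have := mul_nonneg hg (sq_nonneg (x - g))
    nlinarith
  have d4 : 0 ≤ x ^ 2 * g := by positivity
  have d5 : 0 ≤ g ^ 3 := by positivity
  have d6 : 0 ≤ g ^ 2 := by positivity
  have d7 : 0 ≤ x ^ 2 := by positivity
  rw [← hXs]
  nlinarith

/-! ### polynomial bounds -/

theorem pb_K : PB2 (fun K _ => (K : ℝ)) := PB2.fst PB.id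
theorem pb_L : PB2 (fun _ L => (L : ℝ)) := PB2.snd PB.id
theorem pb_n : PB2 (fun K L => (K : ℝ) + L) := pb_K.add pb_L

theorem pb_gg : PB2 (fun K L => gg K L) := by
  refine PB2.of_le ((PB2.const 2).mul ((pb_K.sub pb_L).pow 2)) fun K L => ?_
  rw [abs_of_nonneg (gg_nonneg K L)]
  unfold gg
  have h0 : (0 : ℝ) ≤ K := Nat.cast_nonneg K
  have h1 : (0 : ℝ) ≤ L := Nat.cast_nonneg L
  rw [div_le_iff₀ (by positivity)]
  have h2 : (0 : ℝ) ≤ ((K : ℝ) - L) ^ 2 := sq_nonneg _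
  have h3 : (0 : ℝ) ≤ ((K : ℝ) - L) ^ 2 * (K + L) := by positivity
  nlinarith

theorem pb_hm : PB2 (fun K L => hm K L) := by
  refine PB2.of_le (pb_n.div_const 4) fun K L => ?_
  rw [abs_of_nonneg (hm_nonneg K L)]
  exact hm_le K L

theorem pb_hv : PB2 (fun K L => hv K L) := by
  refine PB2.of_le (pb_n.div_const 2) fun K L => ?_
  rw [abs_of_nonneg (hv_bounds K L).1]
  exact (hv_bounds K L).2

theorem pb_h3 : PB2 (fun K L => h3 K L) :=
  PB2.of_le ((PB2.const 3).mul ((PB2.const 1).add pb_gg)) fun K L => h3_bound K L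

theorem vr_nonneg {a : ℕ → ℝ} (ha : AM a) : 0 ≤ vr a := by
  unfold vr E
  exact tsum_nonneg fun k => mul_nonneg (ha.nn k) (sq_nonneg _)

/-- Job T3. -/
theorem t_T3 : P_HYP1 → P_TLAW → P_EXP → P_TM → P_T3 := by
  intro h1 hT hE hM C8 hC8
  obtain ⟨D8, hD8, hE8⟩ := hE C8 hC8
  refine ⟨3 * (180 + 91 * D8) + 1, by nlinarith, fun C3 hC3 => ?_⟩
  have hC31 : 1 ≤ C3 := by nlinarith
  obtain ⟨D, M, hD, hM10, hEx⟩ := hE8 C3 hC31
  obtain ⟨D', M', hD', hM10', hTM⟩ := hM C3 C8 hC31 hC8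
  refine ⟨max (max M M') (max (max D (8 * D')) 20), ?_, fun a ha hμ => ?_⟩
  · exact hM10.trans ((le_max_left _ _).trans (le_max_left _ _))
  have hμM : M ≤ mean a := ((le_max_left _ _).trans (le_max_left _ _)).trans hμ
  have hμM' : M' ≤ mean a := ((le_max_right _ _).trans (le_max_left _ _)).trans hμ
  have hμD : D ≤ mean a := (((le_max_left _ _).trans (le_max_left _ _)).trans (le_max_right _ _)).trans hμ
  have hμD' : 8 * D' ≤ mean a := (((le_max_right _ _).trans (le_max_left _ _)).trans (le_max_right _ _)).trans hμ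
  have hμ20 : 20 ≤ mean a := ((le_max_right _ _).trans (le_max_right _ _)).trans hμ
  obtain ⟨e1, e2, e3, -, e5, e6, e7, -, e9, -, -, -⟩ := hEx a ha hμM
  obtain ⟨m1, -⟩ := hTM a ha hμM'
  have hA : AM a := ha.toAM
  obtain ⟨hTA, hTφ⟩ := hT a hA
  set μ := mean a with hμdef
  have hμ0 : 0 < μ := by linarith
  have hV0 : 0 ≤ vr a := vr_nonneg hA
  have hV1 : vr a / μ ≤ 1 := by
    rw [div_le_one hμ0]
    exact ha.vr_le
  have hV2 : 0 ≤ vr a / μ := by positivity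
  have hDμ : D / μ ≤ 1 := by
    rw [div_le_one hμ0]
    exact hμD
  have hDμ' : D' / μ ≤ 1 / 8 := by
    rw [div_le_iff₀ hμ0]
    linarith
  set μ1 := mean (T a) with hμ1def
  -- mean of `T a`
  have hmean : μ1 = Ew a (fun K L => hm K L) := by
    rw [hμ1def]
    unfold mean
    rw [(hTφ (fun k => (k : ℝ)) PB.id).2]
    congr 1
    funext K L
    exact (h1 K L).2.2.2.2.2.2.1
  have hμ1lo : 9 / 20 * μ ≤ μ1 := by
    have := (abs_le.1 m1).1
    linarith
  have hc : |2 * μ - 1 / 2 - 4 * μ1| ≤ 3 := by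
    have h2 := abs_le.1 m1
    rw [abs_le]
    constructor <;> linarith [h2.1, h2.2]
  -- the decomposition
  set X : ℕ → ℕ → ℝ := fun K L => (K : ℝ) + L - 2 * μ with hX
  set Rr : ℕ → ℕ → ℝ := fun K L => 4 * (hm K L - μ1) - X K L with hR
  have pX : PB2 X := pb_n.sub (PB2.const (2 * μ))
  have pR : PB2 Rr := ((PB2.const 4).mul (pb_hm.sub (PB2.const μ1))).sub pX
  have hRb : ∀ K L, |Rr K L| ≤ 4 + gg K L := by
    intro K L
    have q := quarter_le K L
    have g0 := gg_nonneg K L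
    have e := hm_eq K L
    have h2 := abs_le.1 hc
    simp only [hR, hX]
    rw [abs_le]
    constructor <;> linarith [h2.1, h2.2, q.1, q.2]
  set v : ℕ → ℕ → ℝ := fun K L => hv K L - ((K : ℝ) + L) / 16 with hv'
  have pv : PB2 v := pb_hv.sub (pb_n.div_const 16)
  set Gf : ℕ → ℕ → ℝ := fun K L => h3 K L + 3 / 64 * (X K L * (X K L + Rr K L)) + 3 / 4 * (v K L * (X K L + Rr K L)) +
    1 / 64 * (3 * X K L ^ 2 * Rr K L + 3 * X K L * Rr K L ^ 2 + Rr K L ^ 3) with hG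
  have pG : PB2 Gf := by
    refine ((pb_h3.add ((PB2.const (3 / 64)).mul (pX.mul (pX.add pR)))).add ((PB2.const (3 / 4)).mul (pv.mul (pX.add pR)))).add
      ((PB2.const (1 / 64)).mul (((((PB2.const 3).mul (pX.pow 2)).mul pR).add (((PB2.const 3).mul pX).mul (pR.pow 2))).add (pR.pow 3)))
  have hk3 : k3 (T a) = Ew a Gf + 6 * μ / 64 * Ew a (fun K L => X K L + Rr K L) + 1 / 64 * Ew a (fun K L => X K L ^ 3) := by
    have pφ : PB (fun k : ℕ => ((k : ℝ) - μ1) ^ 3) := (PB.id.sub (PB.const μ1)).pow 3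
    have h2 : k3 (T a) = Ew a (fun K L => H K L (fun j => ((j : ℝ) - μ1) ^ 3)) := by
      unfold k3
      exact (hTφ _ pφ).2
    have h3' : (fun K L => H K L (fun j => ((j : ℝ) - μ1) ^ 3)) =
        fun K L => (Gf K L + 6 * μ / 64 * (X K L + Rr K L)) + 1 / 64 * X K L ^ 3 := by
      funext K L
      rw [H_cube h1 K L μ1]
      simp only [hG, hv', hR, hX]
      ring
    rw [h2, h3', hA.Ew_add (pG.add ((PB2.const _).mul (pX.add pR))) ((PB2.const _).mul (pX.pow 3)),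
      hA.Ew_add pG ((PB2.const _).mul (pX.add pR)), Ew_const_mul, Ew_const_mul]
  have hzero : Ew a (fun K L => X K L + Rr K L) = 0 := by
    have h2 : (fun K L => X K L + Rr K L) = fun K L => 4 * (hm K L - μ1) := by
      funext K L
      simp only [hR]
      ring
    rw [h2, Ew_const_mul, hA.Ew_sub pb_hm (PB2.const μ1), hA.Ew_const, ← hmean]
    ring
  -- bound for `G`
  have pmaj : PB2 (fun K L => 30 * (1 + gg K L + gg K L ^ 2 + gg K L ^ 3 + X K L ^ 2 + X K L ^ 2 * gg K L)) :=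
    (PB2.const 30).mul ((((((PB2.const 1).add pb_gg).add (pb_gg.pow 2)).add (pb_gg.pow 3)).add (pX.pow 2)).add ((pX.pow 2).mul pb_gg))
  have hGle : |Ew a Gf| ≤ Ew a (fun K L => 30 * (1 + gg K L + gg K L ^ 2 + gg K L ^ 3 + X K L ^ 2 + X K L ^ 2 * gg K L)) := by
    refine (hA.abs_Ew_le pG).trans (hA.Ew_mono pG.abs pmaj fun K L => ?_)
    exact pointwise (gg_nonneg K L) (hRb K L) (hv_sub K L) (h3_bound K L)
  have hsplit : Ew a (fun K L => 30 * (1 + gg K L + gg K L ^ 2 + gg K L ^ 3 + X K L ^ 2 + X K L ^ 2 * gg K L)) =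
      30 * (1 + Ew a (fun K L => gg K L) + Ew a (fun K L => gg K L ^ 2) + Ew a (fun K L => gg K L ^ 3) +
        Ew a (fun K L => X K L ^ 2) + Ew a (fun K L => X K L ^ 2 * gg K L)) := by
    rw [Ew_const_mul, hA.Ew_add (((((PB2.const 1).add pb_gg).add (pb_gg.pow 2)).add (pb_gg.pow 3)).add (pX.pow 2)) ((pX.pow 2).mul pb_gg),
      hA.Ew_add ((((PB2.const 1).add pb_gg).add (pb_gg.pow 2)).add (pb_gg.pow 3)) (pX.pow 2),
      hA.Ew_add (((PB2.const 1).add pb_gg).add (pb_gg.pow 2)) (pb_gg.pow 3),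
      hA.Ew_add ((PB2.const 1).add pb_gg) (pb_gg.pow 2),
      hA.Ew_add (PB2.const 1) pb_gg, hA.Ew_const]
  have f1 : Ew a (fun K L => gg K L) ≤ 2 := by
    have h2 : Ew a (fun K L => gg K L) = Ew a (fun K L => ((K : ℝ) - L) ^ 2 / (K + L + 1 / 2)) := rfl
    rw [h2]
    have := (abs_le.1 e5).2
    linarith
  have f2 : Ew a (fun K L => gg K L ^ 2) ≤ D8 := e6
  have f3 : Ew a (fun K L => gg K L ^ 3) ≤ D8 := e7
  have f4 : Ew a (fun K L => X K L ^ 2) ≤ 3 * μ := by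
    have h2 := (abs_le.1 e2).2
    have h3' := ha.vr_le
    have h4 : Ew a (fun K L => X K L ^ 2) = Ew a (fun K L => ((K : ℝ) + L - 2 * μ) ^ 2) := rfl
    rw [h4]
    have h5 : vr a ≤ μ := h3'
    linarith
  have f5 : Ew a (fun K L => X K L ^ 2 * gg K L) ≤ D8 * μ := e9
  have f6 : |Ew a (fun K L => X K L ^ 3)| ≤ 2 * (C3 * μ) + D8 * μ := by
    have h4 : Ew a (fun K L => X K L ^ 3) = Ew a (fun K L => ((K : ℝ) + L - 2 * μ) ^ 3) := rfl
    rw [h4]
    have h5 : |k3 a| ≤ C3 * μ := ha.k3_le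
    have h6 := abs_le.1 h5
    have h7 := abs_le.1 e3
    rw [abs_le]
    constructor <;> linarith [h6.1, h6.2, h7.1, h7.2]
  rw [hsplit] at hGle
  rw [hk3, hzero, mul_zero, add_zero]
  have g1 : |Ew a Gf| ≤ 30 * (1 + 2 + D8 + D8 + 3 * μ + D8 * μ) := by
    refine hGle.trans ?_
    linarith
  have g2 : |Ew a Gf + 1 / 64 * Ew a (fun K L => X K L ^ 3)| ≤
      30 * (1 + 2 + D8 + D8 + 3 * μ + D8 * μ) + 1 / 64 * (2 * (C3 * μ) + D8 * μ) := by
    refine (abs_add_le _ _).trans (add_le_add g1 ?_)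
    rw [abs_mul, abs_of_pos (by norm_num : (0 : ℝ) < 1 / 64)]
    exact mul_le_mul_of_nonneg_left f6 (by norm_num)
  refine g2.trans ?_
  have g3 : (3 * (180 + 91 * D8) + 1) * μ ≤ C3 * μ := mul_le_mul_of_nonneg_right hC3 hμ0.le
  have g4 : C3 * (9 / 20 * μ) ≤ C3 * μ1 := mul_le_mul_of_nonneg_left hμ1lo (by linarith)
  have g5 : D8 * 1 ≤ D8 * μ := mul_le_mul_of_nonneg_left (by linarith) hD8.le
  nlinarith

end Pool.Agent.Q149.MK
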